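import Pool.Agent.U36.SD.Stm

/-!
Project SD, package OP: `US` is normal and open, `CS` and `CO` are stable.
-/

set_option autoImplicit false
set_option linter.unusedSectionVars false

open NumberField Polynomial IsDedekindDomain Pool.Agent.W401.Cheb

namespace Pool.Agent.U637.SD

open Pool.Agent.U36.SD

variable {K : Type} [Field K] [NumberField K]

lemma inv_mem_of_normal (N : IntermediateField K (AlgebraicClosure K)) [Normal K N] (τ : GK K)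
    (x : AlgebraicClosure K) (hx : x ∈ N) : τ x ∈ N := by
  have h := (IntermediateField.normal_iff_forall_map_le' (K := N)).1 inferInstance τ
  exact h ⟨x, hx, rfl⟩

lemma US_normal (N : IntermediateField K (AlgebraicClosure K)) [Normal K N] (A : Finset ℕ)
    (c : ℕ → AlgebraicClosure K) : (US N A c).Normal := by
  constructor
  rintro σ ⟨h1, h2⟩ τ
  refine ⟨fun x hx => ?_, fun ℓ hℓ => ⟨fun ζ hζ => ?_, fun ρ z hz => ?_⟩⟩
  · rw [AlgEquiv.mul_apply, AlgEquiv.mul_apply, h1 _ (inv_mem_of_normal N τ⁻¹ x hx),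
      ← AlgEquiv.mul_apply, mul_inv_cancel]
    rfl
  · have e : ((τ⁻¹ : GK K) ζ) ^ ℓ = 1 := by rw [← map_pow, hζ, map_one]
    rw [AlgEquiv.mul_apply, AlgEquiv.mul_apply, (h2 ℓ hℓ).1 _ e, ← AlgEquiv.mul_apply,
      mul_inv_cancel]
    rfl
  · have e : ((τ⁻¹ : GK K) z) ^ ℓ = (τ⁻¹ * ρ : GK K) (c ℓ) := by
      rw [← map_pow, hz, AlgEquiv.mul_apply]
    rw [AlgEquiv.mul_apply, AlgEquiv.mul_apply, (h2 ℓ hℓ).2 _ _ e, ← AlgEquiv.mul_apply,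
      mul_inv_cancel]
    rfl

lemma finite_roots (ℓ : ℕ) (hℓ : 0 < ℓ) (y : AlgebraicClosure K) :
    {z : AlgebraicClosure K | z ^ ℓ = y}.Finite := by
  classical
  refine ((nthRoots ℓ y).toFinset.finite_toSet).subset ?_
  intro z hz
  simp only [Finset.mem_coe, Multiset.mem_toFinset]
  exact (mem_nthRoots hℓ).2 hz

lemma finite_conj (x : AlgebraicClosure K) : {y : AlgebraicClosure K | ∃ τ : GK K, y = τ x}.Finite := by
  have hint : IsIntegral K x := Algebra.IsIntegral.isIntegral x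
  refine ((minpoly K x).rootSet_finite (AlgebraicClosure K)).subset ?_
  rintro y ⟨τ, rfl⟩
  rw [mem_rootSet]
  refine ⟨minpoly.ne_zero hint, ?_⟩
  have h : aeval (τ.toAlgHom x) (minpoly K x) = τ.toAlgHom (aeval x (minpoly K x)) :=
    aeval_algHom_apply τ.toAlgHom x (minpoly K x)
  rw [minpoly.aeval, map_zero] at h
  exact h

lemma finite_Z (ℓ : ℕ) (hℓ : 0 < ℓ) (x : AlgebraicClosure K) :
    {z : AlgebraicClosure K | ∃ τ : GK K, z ^ ℓ = τ x}.Finite := by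
  have h : {z : AlgebraicClosure K | ∃ τ : GK K, z ^ ℓ = τ x} ⊆
      ⋃ y ∈ {y : AlgebraicClosure K | ∃ τ : GK K, y = τ x}, {z : AlgebraicClosure K | z ^ ℓ = y} := by
    rintro z ⟨τ, hz⟩
    simp only [Set.mem_iUnion, Set.mem_ofPred_eq]
    exact ⟨τ x, ⟨τ, rfl⟩, hz⟩
  exact ((finite_conj x).biUnion fun y _ => finite_roots ℓ hℓ y).subset h

lemma US_open (N : IntermediateField K (AlgebraicClosure K)) [FiniteDimensional K N] (A : Finset ℕ)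
    (hA : ∀ ℓ ∈ A, 0 < ℓ) (c : ℕ → AlgebraicClosure K) : IsOpen (US N A c : Set (GK K)) := by
  have h : (US N A c : Set (GK K)) =
      (N.fixingSubgroup : Set (GK K)) ∩ ⋂ ℓ ∈ A,
        ((⋂ z ∈ {z : AlgebraicClosure K | z ^ ℓ = 1}, {σ : GK K | σ z = z}) ∩
         (⋂ z ∈ {z : AlgebraicClosure K | ∃ τ : GK K, z ^ ℓ = τ (c ℓ)}, {σ : GK K | σ z = z})) := by
    ext σ
    simp only [Set.mem_iInter, Set.mem_inter_iff, Set.mem_ofPred_eq, SetLike.mem_coe]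
    rw [IntermediateField.mem_fixingSubgroup_iff]
    constructor
    · rintro ⟨h1, h2⟩
      exact ⟨h1, fun ℓ hℓ => ⟨fun z hz => (h2 ℓ hℓ).1 z hz, fun z ⟨τ, hz⟩ => (h2 ℓ hℓ).2 τ z hz⟩⟩
    · rintro ⟨h1, h2⟩
      exact ⟨h1, fun ℓ hℓ => ⟨fun z hz => (h2 ℓ hℓ).1 z hz, fun τ z hz => (h2 ℓ hℓ).2 z ⟨τ, hz⟩⟩⟩
  rw [h]
  refine (IntermediateField.fixingSubgroup_isOpen N).inter (isOpen_biInter_finset fun ℓ hℓ => ?_)
  exact ((finite_roots ℓ (hA ℓ hℓ) 1).isOpen_biInter fun z _ => Pool.Agent.U36.SC.isOpen_fix z).inter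
    ((finite_Z ℓ (hA ℓ hℓ) (c ℓ)).isOpen_biInter fun z _ => Pool.Agent.U36.SC.isOpen_fix z)

lemma pow_mul_mem (N : IntermediateField K (AlgebraicClosure K)) [Normal K N] (A : Finset ℕ)
    (c : ℕ → AlgebraicClosure K) (σ u : GK K) (hu : u ∈ US N A c) (h : ℕ) :
    ∃ v ∈ US N A c, (σ * u) ^ h = σ ^ h * v := by
  have hn := US_normal N A c
  refine ⟨(σ ^ h)⁻¹ * (σ * u) ^ h, ?_, by group⟩
  rw [← QuotientGroup.eq]
  have e : ((σ * u : GK K) : GK K ⧸ US N A c) = (σ : GK K ⧸ US N A c) := by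
    rw [eq_comm, QuotientGroup.eq, inv_mul_cancel_left]
    exact hu
  rw [QuotientGroup.mk_pow, QuotientGroup.mk_pow, e]

lemma stable (N : IntermediateField K (AlgebraicClosure K)) [Normal K N] (A : Finset ℕ)
    (c : ℕ → AlgebraicClosure K) (h : ℕ) (σ u τ : GK K) (hu : u ∈ US N A c)
    (hσ : ∀ ℓ ∈ A, (∀ ζ : AlgebraicClosure K, ζ ^ ℓ = 1 → (σ ^ h) ζ = ζ) →
      ∀ z : AlgebraicClosure K, z ^ ℓ = τ (c ℓ) → (σ ^ h) z = z) :
    ∀ ℓ ∈ A, (∀ ζ : AlgebraicClosure K, ζ ^ ℓ = 1 → ((σ * u) ^ h) ζ = ζ) →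
      ∀ z : AlgebraicClosure K, z ^ ℓ = τ (c ℓ) → ((σ * u) ^ h) z = z := by
  obtain ⟨v, ⟨hv1, hv2⟩, e⟩ := pow_mul_mem N A c σ u hu h
  intro ℓ hℓ h1 z hz
  rw [e] at h1 ⊢
  rw [AlgEquiv.mul_apply, (hv2 ℓ hℓ).2 τ z hz]
  refine hσ ℓ hℓ (fun ζ hζ => ?_) z hz
  have := h1 ζ hζ
  rwa [AlgEquiv.mul_apply, (hv2 ℓ hℓ).1 ζ hζ] at this

theorem t_OP : S_OP := by
  intro K _ _ N _ _ A hA c
  refine ⟨US_normal N A c, US_open N A hA c, fun h => ⟨?_, ?_, ?_⟩⟩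
  · rintro σ ⟨τ0, hσ⟩ τ
    refine ⟨τ * τ0, fun ℓ hℓ h1 z hz => ?_⟩
    rw [conj_pow] at h1 ⊢
    have h2 : ∀ ζ : AlgebraicClosure K, ζ ^ ℓ = 1 → (σ ^ h) ζ = ζ := by
      intro ζ hζ
      have h3 := h1 (τ ζ) (by rw [← map_pow, hζ, map_one])
      rw [AlgEquiv.mul_apply, AlgEquiv.mul_apply, ← AlgEquiv.mul_apply τ⁻¹ τ, inv_mul_cancel] at h3
      exact τ.injective h3
    have e : ((τ⁻¹ : GK K) z) ^ ℓ = τ0 (c ℓ) := by
      rw [← map_pow, hz, ← AlgEquiv.mul_apply, inv_mul_cancel_left]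
    rw [AlgEquiv.mul_apply, AlgEquiv.mul_apply, hσ ℓ hℓ h2 _ e, ← AlgEquiv.mul_apply,
      mul_inv_cancel]
    rfl
  · rintro σ ⟨τ0, hσ⟩ u hu
    exact ⟨τ0, stable N A c h σ u τ0 hu hσ⟩
  · intro σ hσ u hu
    have := stable N A c h σ u 1 hu (fun ℓ hℓ h1 z hz => hσ ℓ hℓ h1 z hz)
    exact fun ℓ hℓ h1 z hz => this ℓ hℓ h1 z hz

end Pool.Agent.U637.SD
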